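import Pool.Agent.U251.LD.Stm
import Pool.Agent.N48.Ann.NT7
import Pool.Agent.H398R2.BV1

/-!
# Project LD, package UP: upper bounds for sums of the square of the divisor function
-/

set_option autoImplicit false

namespace Pool.Agent.U97.LD.UP

open Real Pool.Agent.U251.LD Pool.Agent.N48.Ann

lemma sum_sq (X : ℕ) : ∑ n ∈ Finset.Icc 1 X, dv n ^ 2 ≤ X * (1 + log X) ^ 3 :=
  Pool.Agent.H398R2.BV.sum_card_div_sq X

lemma dv_nonneg (n : ℕ) : 0 ≤ dv n := Nat.cast_nonneg _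

/-- the weight -/
noncomputable def wt (h : ℝ) (n : ℕ) : ℝ :=
  min ((n : ℝ) ^ (-(3 / 2) : ℝ)) (h ^ 2 * (n : ℝ) ^ (-(1 / 2) : ℝ))

lemma wt_nonneg (h : ℝ) (n : ℕ) : 0 ≤ wt h n := by
  unfold wt
  positivity

lemma term_le (n : ℕ) (hn : 1 ≤ n) (h : ℝ) :
    cd n ^ 2 * min 2 (2 * π ^ 2 * (n * h ^ 2)) ≤ dv n ^ 2 * wt h n := by
  have hn0 : (0 : ℝ) < n := by exact_mod_cast hn
  have hpi : 0 < π := pi_pos
  have hpi1 : 1 ≤ π ^ 2 := by nlinarith [pi_gt_three]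
  have hs2 : √2 ^ 2 = (2 : ℝ) := Real.sq_sqrt (by norm_num)
  have h1 : cd n ^ 2 = dv n ^ 2 / (2 * π ^ 2) * (n : ℝ) ^ (-(3 / 2) : ℝ) := by
    unfold cd
    rw [mul_pow, div_pow, mul_pow, hs2, ← rpow_natCast ((n : ℝ) ^ (-(3 / 4) : ℝ)) 2,
      ← rpow_mul hn0.le, mul_comm (π ^ 2)]
    norm_num
  have h2 : (n : ℝ) ^ (-(1 / 2) : ℝ) = (n : ℝ) ^ (-(3 / 2) : ℝ) * n := by
    rw [← rpow_add_one hn0.ne']; norm_num
  unfold wt
  set A : ℝ := (n : ℝ) ^ (-(3 / 2) : ℝ) with hA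
  have hA0 : 0 ≤ A := rpow_nonneg hn0.le _
  have h3 : min 2 (2 * π ^ 2 * (n * h ^ 2)) ≤ 2 * π ^ 2 * min 1 (n * h ^ 2) := by
    rw [mul_min_of_nonneg _ _ (by positivity : (0 : ℝ) ≤ 2 * π ^ 2)]
    apply min_le_min _ le_rfl
    nlinarith
  have h4 : min A (h ^ 2 * (A * n)) = A * min 1 (n * h ^ 2) := by
    rw [mul_min_of_nonneg _ _ hA0]
    congr 1 <;> ring
  rw [h1, h2, h4]
  calc dv n ^ 2 / (2 * π ^ 2) * A * min 2 (2 * π ^ 2 * (n * h ^ 2))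
      ≤ dv n ^ 2 / (2 * π ^ 2) * A * (2 * π ^ 2 * min 1 (n * h ^ 2)) :=
        mul_le_mul_of_nonneg_left h3 (by positivity)
    _ = dv n ^ 2 * (A * min 1 (n * h ^ 2)) := by
        field_simp

open Classical in
/-- the truncated sequence -/
noncomputable def tr (h : ℝ) (n : ℕ) : ℝ := if (n : ℝ) ≤ (1 / h) ^ 4 then dv n ^ 2 else 0

lemma tr_sum {h : ℝ} (hh : 0 < h) (hh1 : h ≤ 1) (X : ℕ) (hX : 1 ≤ X) :
    ∑ n ∈ Finset.Icc 1 X, tr h n ≤ 16 * (1 + log (1 / h)) ^ 2 * (X * (1 + log X)) := by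
  classical
  have h1h : 1 ≤ 1 / h := by rw [one_le_div hh]; exact hh1
  have hM1 : 1 ≤ (1 / h) ^ 4 := one_le_pow₀ h1h
  set Y : ℕ := min X ⌊(1 / h) ^ 4⌋₊ with hY
  have hY1 : 1 ≤ Y := le_min hX (by rw [Nat.one_le_floor_iff]; exact hM1)
  have hY0 : (1 : ℝ) ≤ Y := by exact_mod_cast hY1
  have hYX : (Y : ℝ) ≤ X := by exact_mod_cast min_le_left _ _
  have hYM : (Y : ℝ) ≤ (1 / h) ^ 4 :=
    le_trans (by exact_mod_cast min_le_right _ _) (Nat.floor_le (by positivity))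
  have e1 : ∑ n ∈ Finset.Icc 1 X, tr h n ≤ ∑ n ∈ Finset.Icc 1 Y, dv n ^ 2 := by
    unfold tr
    rw [← Finset.sum_filter]
    refine Finset.sum_le_sum_of_subset_of_nonneg ?_ (fun _ _ _ => by positivity)
    intro n hn
    rw [Finset.mem_filter, Finset.mem_Icc] at hn
    rw [Finset.mem_Icc]
    exact ⟨hn.1.1, le_min hn.1.2 (Nat.le_floor hn.2)⟩
  refine e1.trans ((sum_sq Y).trans ?_)
  have hl0 : 0 ≤ log (Y : ℝ) := log_nonneg hY0
  have hlX : log (Y : ℝ) ≤ log X := log_le_log (by linarith) hYX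
  have hlh : 0 ≤ log (1 / h) := log_nonneg h1h
  have hlM : log (Y : ℝ) ≤ 4 * log (1 / h) := by
    have := log_le_log (by linarith) hYM
    rw [log_pow] at this
    exact_mod_cast this
  have h5 : 1 + log (Y : ℝ) ≤ 4 * (1 + log (1 / h)) := by linarith
  calc (Y : ℝ) * (1 + log Y) ^ 3 = ((1 + log (Y : ℝ)) ^ 2) * (Y * (1 + log Y)) := by ring
    _ ≤ ((4 * (1 + log (1 / h))) ^ 2) * (X * (1 + log X)) := by
        gcongr
    _ = _ := by ring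

/-- the constant -/
noncomputable def Z : ℝ := ∑' m : ℕ, (m : ℝ) ^ (-(9 / 8) : ℝ)

lemma sum_le_Z (s : Finset ℕ) : ∑ m ∈ s, (m : ℝ) ^ (-(9 / 8) : ℝ) ≤ Z :=
  (Real.summable_nat_rpow.2 (by norm_num)).sum_le_tsum s
    fun _ _ => Real.rpow_nonneg (Nat.cast_nonneg _) _

lemma Z_nonneg : 0 ≤ Z := tsum_nonneg fun _ => Real.rpow_nonneg (Nat.cast_nonneg _) _

lemma rest_le {C : ℝ} (hC : 0 < C)
    (hd : ∀ n : ℕ, 1 ≤ n → (n.divisors.card : ℝ) ≤ C * (n : ℝ) ^ (1 / 16 : ℝ))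
    {h : ℝ} (hh : 0 < h) (n : ℕ) (hn : 1 ≤ n) :
    (dv n ^ 2 - tr h n) * wt h n ≤ C ^ 2 * h * (n : ℝ) ^ (-(9 / 8) : ℝ) := by
  have hn0 : (0 : ℝ) < n := by exact_mod_cast hn
  unfold tr
  split_ifs with hle
  · rw [sub_self, zero_mul]
    positivity
  · push Not at hle
    rw [sub_zero]
    have h1 : dv n ^ 2 ≤ (C * (n : ℝ) ^ (1 / 16 : ℝ)) ^ 2 :=
      pow_le_pow_left₀ (dv_nonneg n) (hd n hn) 2
    have h2 : ((n : ℝ) ^ (1 / 16 : ℝ)) ^ 2 = (n : ℝ) ^ (1 / 8 : ℝ) := by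
      rw [← rpow_natCast, ← rpow_mul hn0.le]
      norm_num
    have h3 : wt h n ≤ (n : ℝ) ^ (-(3 / 2) : ℝ) := min_le_left _ _
    have h4 : (n : ℝ) ^ (1 / 8 : ℝ) * (n : ℝ) ^ (-(3 / 2) : ℝ) =
        (n : ℝ) ^ (-(9 / 8) : ℝ) * (n : ℝ) ^ (-(1 / 4) : ℝ) := by
      rw [← rpow_add hn0, ← rpow_add hn0]
      norm_num
    have h5 : (n : ℝ) ^ (-(1 / 4) : ℝ) ≤ h := by
      have h6 : 1 / h ≤ (n : ℝ) ^ (1 / 4 : ℝ) := by
        have h7 := rpow_le_rpow (by positivity) hle.le (by norm_num : (0 : ℝ) ≤ 1 / 4)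
        have h8 : ((1 / h) ^ 4) ^ (1 / 4 : ℝ) = 1 / h := by
          rw [← rpow_natCast, ← rpow_mul (by positivity)]
          norm_num
        rwa [h8] at h7
      rw [rpow_neg hn0.le, inv_le_comm₀ (by positivity) hh, ← one_div]
      exact h6
    calc dv n ^ 2 * wt h n
        ≤ (C * (n : ℝ) ^ (1 / 16 : ℝ)) ^ 2 * (n : ℝ) ^ (-(3 / 2) : ℝ) :=
          mul_le_mul h1 h3 (wt_nonneg h n) (by positivity)
      _ = C ^ 2 * ((n : ℝ) ^ (1 / 8 : ℝ) * (n : ℝ) ^ (-(3 / 2) : ℝ)) := by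
          rw [mul_pow, h2]
          ring
      _ = C ^ 2 * (n : ℝ) ^ (-(9 / 8) : ℝ) * (n : ℝ) ^ (-(1 / 4) : ℝ) := by
          rw [h4]
          ring
      _ ≤ C ^ 2 * (n : ℝ) ^ (-(9 / 8) : ℝ) * h := by
          gcongr
      _ = _ := by ring

/-- Package UP. -/
theorem t_UP : S_UP := by
  obtain ⟨C, hC, hd⟩ := Pool.Agent.Helper112.divisor_bound (1 / 16) (by norm_num)
  have hZ := Z_nonneg
  refine ⟨3200 + C ^ 2 * Z + 1, by positivity, ?_, ?_⟩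
  · intro X hX
    refine (sum_sq X).trans ?_
    have h0 : 0 ≤ log (X : ℝ) := log_nonneg (by exact_mod_cast hX)
    have h1 : 0 ≤ (X : ℝ) * (1 + log X) ^ 3 := by positivity
    have h2 : 0 ≤ C ^ 2 * Z := by positivity
    nlinarith
  · intro N h hh hh1
    have h1h : 1 ≤ 1 / h := by rw [one_le_div hh]; exact hh1
    have hlh : 0 ≤ log (1 / h) := log_nonneg h1h
    have hv := u_var (u := tr h) (C := 16 * (1 + log (1 / h)) ^ 2) (by positivity)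
      (fun X hX => tr_sum hh hh1 X hX) hh hh1 N
    have hv' : ∑ n ∈ Finset.Icc 1 N, tr h n * wt h n ≤
        200 * (16 * (1 + log (1 / h)) ^ 2) * (h * (1 + log (1 / h))) := hv
    calc ∑ n ∈ Finset.Icc 1 N, cd n ^ 2 * min 2 (2 * π ^ 2 * (n * h ^ 2))
        ≤ ∑ n ∈ Finset.Icc 1 N, (tr h n * wt h n + C ^ 2 * h * (n : ℝ) ^ (-(9 / 8) : ℝ)) := by
          refine Finset.sum_le_sum fun n hn => ?_
          have hn1 := (Finset.mem_Icc.1 hn).1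
          have a1 := term_le n hn1 h
          have a2 := rest_le hC hd hh n hn1
          nlinarith
      _ = ∑ n ∈ Finset.Icc 1 N, tr h n * wt h n +
            C ^ 2 * h * ∑ n ∈ Finset.Icc 1 N, (n : ℝ) ^ (-(9 / 8) : ℝ) := by
          rw [Finset.sum_add_distrib, Finset.mul_sum]
      _ ≤ 200 * (16 * (1 + log (1 / h)) ^ 2) * (h * (1 + log (1 / h))) + C ^ 2 * h * Z := by
          have := sum_le_Z (Finset.Icc 1 N)
          gcongr
      _ ≤ (3200 + C ^ 2 * Z + 1) * (h * (1 + log (1 / h)) ^ 3) := by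
          have h3 : 1 ≤ (1 + log (1 / h)) ^ 3 := one_le_pow₀ (by linarith)
          have h4 : 0 ≤ C ^ 2 * Z * h := by positivity
          have h5 : 0 ≤ h * (1 + log (1 / h)) ^ 3 := by positivity
          nlinarith

end Pool.Agent.U97.LD.UP
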